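import Mathlib

set_option autoImplicit false

namespace Pool.Agent.Results.MP_f664e7_co.Counter

open List

def IsPerm (p : List ℕ) : Prop := p.Nodup ∧ ∀ x ∈ p, 0 < x

def SameOrder (p q : List ℕ) : Prop :=
  p.length = q.length ∧ ∀ i < p.length, ∀ j < p.length,
    (p.getD i 0 < p.getD j 0 ↔ q.getD i 0 < q.getD j 0)

def IsStat {β : Type} (cst : Cycle ℕ → β) : Prop :=
  ∀ p q : List ℕ, IsPerm p → IsPerm q → SameOrder p q → cst p = cst q

def shuffles (p q : List ℕ) : Set (Cycle ℕ) :=
  {c | ∃ t : List ℕ, c = t ∧ IsPerm t ∧ t.length = p.length + q.length ∧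
    (∃ p', p' ~r p ∧ p' <+ t) ∧ ∃ q', q' ~r q ∧ q' <+ t}

def Compatible {β : Type} (cst : Cycle ℕ → β) : Prop :=
  ∀ p q p' q' : List ℕ, IsPerm p → IsPerm q → IsPerm p' → IsPerm q' →
    p.Disjoint q → p'.Disjoint q' → cst p = cst p' → cst q = cst q' →
    p.length = p'.length → q.length = q'.length →
    ∀ v : β, {c ∈ shuffles p q | cst c = v}.encard = {c ∈ shuffles p' q' | cst c = v}.encard

def cDes (p : List ℕ) : Finset ℕ :=
  (Finset.range p.length).filter (fun i => p.getD ((i + 1) % p.length) 0 < p.getD i 0)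

def cDesCyc (p : List ℕ) : Multiset (Finset ℕ) :=
  (Multiset.range p.length).map (fun i => cDes (p.rotate i))

def IsDescentStat {β : Type} (cst : Cycle ℕ → β) : Prop :=
  ∀ p q : List ℕ, IsPerm p → IsPerm q → p.length = q.length → cDesCyc p = cDesCyc q → cst p = cst q

def tt (a : ℕ) (l : List ℕ) : ℤ := (l.map (fun b => if b < a then (-1 : ℤ) else 1)).prod

def sg : List ℕ → ℤ
  | [] => 1
  | a :: l => tt a l * sg l

theorem tt_perm (a : ℕ) {l l' : List ℕ} (h : l ~ l') : tt a l = tt a l' := (h.map _).prod_eq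

theorem tt_sq (a : ℕ) (l : List ℕ) : tt a l * tt a l = 1 := by
  induction l with
  | nil => rfl
  | cons b l ih =>
    simp only [tt, map_cons, prod_cons] at ih ⊢
    split_ifs <;> linear_combination ih

theorem sg_sq (l : List ℕ) : sg l * sg l = 1 := by
  induction l with
  | nil => rfl
  | cons b l ih => rw [sg]; linear_combination (sg l * sg l) * tt_sq b l + ih

theorem sg_cases (l : List ℕ) : sg l = 1 ∨ sg l = -1 := mul_self_eq_one_iff.1 (sg_sq l)

theorem sg_swap {a b : ℕ} (h : a ≠ b) (l : List ℕ) : sg (a :: b :: l) = - sg (b :: a :: l) := by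
  simp only [sg, tt, map_cons, prod_cons]
  rcases lt_or_gt_of_ne h with c | c
  · rw [if_pos c, if_neg (not_lt.2 c.le)]; ring
  · rw [if_pos c, if_neg (not_lt.2 c.le)]; ring

theorem sg_move (a : ℕ) (l y : List ℕ) (h : a ∉ l) :
    sg (a :: l ++ y) = (-1) ^ l.length * sg (l ++ a :: y) := by
  induction l with
  | nil => simp
  | cons b l ih =>
    have h1 : a ≠ b := fun e => h (e ▸ mem_cons_self)
    have h2 := ih (fun e => h (mem_cons_of_mem _ e))
    simp only [cons_append, length_cons] at h2 ⊢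
    rw [sg_swap h1, sg, h2, sg, tt_perm b (perm_middle (a := a) (l₁ := l) (l₂ := y))]
    ring

theorem sg_pre (x : List ℕ) {l l' : List ℕ} (h : l ~ l') (e : ℤ) (g : sg l = e * sg l') :
    sg (x ++ l) = e * sg (x ++ l') := by
  induction x with
  | nil => exact g
  | cons b x ih =>
    simp only [cons_append, sg]
    rw [ih, tt_perm b (h.append_left x)]
    ring

theorem sg_map (f : ℕ → ℕ) {l l' : List ℕ} (h : l ~ l') (h1 : l.Nodup) (h2 : (l.map f).Nodup) :
    sg (l.map f) * sg l = sg (l'.map f) * sg l' := by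
  induction h with
  | nil => rfl
  | cons a h ih =>
    simp only [map_cons, sg]
    rw [tt_perm a h, tt_perm (f a) (h.map f)]
    linear_combination (tt (f a) (map f _) * tt a _) * ih h1.of_cons h2.of_cons
  | swap a b l =>
    simp only [map_cons] at h2 ⊢
    rw [sg_swap (show b ≠ a from fun e => (nodup_cons.1 h1).1 (e ▸ mem_cons_self)),
      sg_swap (show f b ≠ f a from fun e => (nodup_cons.1 h2).1 (e ▸ mem_cons_self))]
    ring
  | trans g1 _ ih1 ih2 =>
    rw [ih1 h1 h2, ih2 (g1.nodup_iff.1 h1) ((g1.map f).nodup_iff.1 h2)]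

theorem sg_rot1 (l : List ℕ) (h : l.Nodup) (ho : Odd l.length) : sg (l.rotate 1) = sg l := by
  cases l with
  | nil => rfl
  | cons a l =>
    have := sg_move a l [] (nodup_cons.1 h).1
    have e : Even l.length := by simpa [parity_simps] using ho
    simp only [append_nil, e.neg_one_pow, one_mul] at this
    simp [this]

theorem sg_rot (l : List ℕ) (h : l.Nodup) (ho : Odd l.length) (n : ℕ) : sg (l.rotate n) = sg l := by
  induction n with
  | zero => simp
  | succ n ih => rw [← rotate_rotate, sg_rot1 _ (nodup_rotate.2 h) (by simpa using ho), ih]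

def stat (c : Cycle ℕ) : Prop := ∃ l : List ℕ, c = l ∧ Odd l.length ∧ sg l = -1

theorem stat_iff {l : List ℕ} (h : l.Nodup) : stat l ↔ Odd l.length ∧ sg l = -1 := by
  refine ⟨?_, fun g => ⟨l, rfl, g⟩⟩
  rintro ⟨m, h1, h2, h3⟩
  obtain ⟨n, rfl⟩ := Cycle.coe_eq_coe.1 h1
  have h4 : Odd l.length := by simpa using h2
  exact ⟨h4, sg_rot l h h4 n ▸ h3⟩

theorem sg_same : ∀ p q : List ℕ, SameOrder p q → sg p = sg q
  | [], [], _ => rfl
  | [], _ :: _, h => absurd h.1 (by simp)
  | _ :: _, [], h => absurd h.1 (by simp)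
  | a :: p, b :: q, h => by
    have h1 : p.length = q.length := by simpa using h.1
    rw [sg, sg, sg_same p q ⟨h1, fun i hi j hj => by
      simpa using h.2 (i + 1) (by simpa using hi) (j + 1) (by simpa using hj)⟩]
    congr 1
    unfold tt
    congr 1
    refine ext_getElem (by simpa using h1) (fun i c1 c2 => ?_)
    have c3 : i < p.length := by simpa using c1
    have c4 : i < q.length := by simpa using c2
    have := h.2 (i + 1) (by simpa using c3) 0 (by simp)
    simp only [getD_cons_succ, getD_cons_zero, getD_eq_getElem _ _ c3, getD_eq_getElem _ _ c4] at this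
    simp [this]

def rel (A B : List ℕ) (x : ℕ) : ℕ := B.getD (A.idxOf x) 0

theorem map_rel {A B : List ℕ} (h : A.Nodup) (e : A.length = B.length) : A.map (rel A B) = B := by
  refine ext_getElem (by simpa using e) (fun i c1 c2 => ?_)
  simp [rel, h.idxOf_getElem, c2]

theorem sh_perm {p q t : List ℕ} (h : (p ++ q).Nodup) (h1 : t.length = p.length + q.length)
    (h2 : ∃ p', p' ~r p ∧ p' <+ t) (h3 : ∃ q', q' ~r q ∧ q' <+ t) : p ++ q ~ t := by
  obtain ⟨p', a1, a2⟩ := h2
  obtain ⟨q', b1, b2⟩ := h3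
  refine (subperm_of_subset h (fun x hx => ?_)).perm_of_length_le (by simp [h1])
  rcases mem_append.1 hx with c | c
  · exact a2.subset (a1.perm.mem_iff.2 c)
  · exact b2.subset (b1.perm.mem_iff.2 c)

theorem sh_map {p q p' q' : List ℕ} (h : (p ++ q).Nodup) (h' : IsPerm (p' ++ q'))
    (e1 : p.length = p'.length) (e2 : q.length = q'.length)
    (hs : Odd (p.length + q.length) → sg (p ++ q) = sg (p' ++ q')) (v : Prop) (c : Cycle ℕ)
    (hc : c ∈ {c ∈ shuffles p q | stat c = v}) :
    c.map (rel (p ++ q) (p' ++ q')) ∈ {c ∈ shuffles p' q' | stat c = v} ∧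
      (c.map (rel (p ++ q) (p' ++ q'))).map (rel (p' ++ q') (p ++ q)) = c := by
  obtain ⟨⟨t, rfl, a1, a2, a3, a4⟩, a5⟩ := hc
  have b1 := sh_perm h a2 a3 a4
  have b2 := map_rel (B := p' ++ q') h (by simp [e1, e2])
  have b3 := map_rel (B := p ++ q) h'.1 (by simp [e1, e2])
  have b4 : p' ++ q' ~ t.map (rel (p ++ q) (p' ++ q')) := by
    have := b1.map (rel (p ++ q) (p' ++ q'))
    rwa [b2] at this
  have b5 := b2
  rw [map_append] at b5
  obtain ⟨b6, b7⟩ := append_inj b5 (by simpa using e1)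
  have b8 : (t.map (rel (p ++ q) (p' ++ q'))).Nodup := b4.nodup_iff.1 h'.1
  refine ⟨⟨⟨t.map (rel (p ++ q) (p' ++ q')), rfl, ⟨b8, fun x hx => h'.2 x (b4.mem_iff.2 hx)⟩,
    by simp [a2, e1, e2], ?_, ?_⟩, ?_⟩, ?_⟩
  · obtain ⟨r, c1, c2⟩ := a3
    have c3 := c1.map (rel (p ++ q) (p' ++ q'))
    rw [b6] at c3
    exact ⟨_, c3, c2.map _⟩
  · obtain ⟨r, c1, c2⟩ := a4
    have c3 := c1.map (rel (p ++ q) (p' ++ q'))
    rw [b7] at c3
    exact ⟨_, c3, c2.map _⟩
  · rw [← a5, Cycle.map_coe, stat_iff b8, stat_iff a1.1, length_map]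
    refine propext (and_congr_right (fun ho => ?_))
    have c1 := sg_map (rel (p ++ q) (p' ++ q')) b1 h (by rw [b2]; exact h'.1)
    rw [b2, hs (a2 ▸ ho), sg_sq] at c1
    have c2 : sg (t.map (rel (p ++ q) (p' ++ q'))) = sg t := by
      linear_combination (- sg t) * c1 - sg (t.map (rel (p ++ q) (p' ++ q'))) * sg_sq t
    rw [c2]
  · rw [Cycle.map_coe, Cycle.map_coe, map_map]
    congr 1
    have c1 : (p ++ q).map (rel (p' ++ q') (p ++ q) ∘ rel (p ++ q) (p' ++ q')) = (p ++ q).map id := by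
      rw [← map_map, b2, b3, map_id]
    rw [map_congr_left (g := id) (fun x hx => map_inj_left.1 c1 x (b1.mem_iff.2 hx)), map_id]

theorem sh_eq {p q p' q' : List ℕ} (h : IsPerm (p ++ q)) (h' : IsPerm (p' ++ q'))
    (e1 : p.length = p'.length) (e2 : q.length = q'.length)
    (hs : Odd (p.length + q.length) → sg (p ++ q) = sg (p' ++ q')) (v : Prop) :
    {c ∈ shuffles p q | stat c = v}.encard = {c ∈ shuffles p' q' | stat c = v}.encard := by
  have a := sh_map h.1 h' e1 e2 hs v
  have b := sh_map h'.1 h e1.symm e2.symm (fun g => (hs (by rwa [e1, e2])).symm) v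
  exact Set.encard_congr (Set.BijOn.equiv _ (Set.InvOn.bijOn
    (f' := Cycle.map (rel (p' ++ q') (p ++ q))) ⟨fun c hc => (a c hc).2, fun c hc => (b c hc).2⟩
    (fun c hc => (a c hc).1) (fun c hc => (b c hc).1)))

theorem sh_rot {p q p' q' : List ℕ} (h1 : p ~r p') (h2 : q ~r q') : shuffles p q = shuffles p' q' := by
  have k : ∀ {a b : List ℕ} (t : List ℕ), a ~r b → (∃ r, r ~r a ∧ r <+ t) → ∃ r, r ~r b ∧ r <+ t :=
    fun t g ⟨r, c1, c2⟩ => ⟨r, c1.trans g, c2⟩
  ext c
  constructor
  · rintro ⟨t, a1, a2, a3, a4, a5⟩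
    exact ⟨t, a1, a2, by rw [a3, h1.perm.length_eq, h2.perm.length_eq], k t h1 a4, k t h2 a5⟩
  · rintro ⟨t, a1, a2, a3, a4, a5⟩
    exact ⟨t, a1, a2, by rw [a3, h1.perm.length_eq, h2.perm.length_eq], k t h1.symm a4,
      k t h2.symm a5⟩

theorem isPerm_perm {a b : List ℕ} (h : a ~ b) (g : IsPerm a) : IsPerm b :=
  ⟨h.nodup_iff.1 g.1, fun x hx => g.2 x (h.mem_iff.2 hx)⟩

theorem same_sg {p p' : List ℕ} (h : p.Nodup) (h' : p'.Nodup) (e : p.length = p'.length)
    (ho : Odd p.length) (g : stat p = stat p') : sg p = sg p' := by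
  rw [stat_iff h, stat_iff h', ← e] at g
  have := g.to_iff
  rcases sg_cases p with a | a <;> rcases sg_cases p' with b | b <;> simp_all

theorem compat : Compatible stat := by
  intro p q p' q' a1 a2 a3 a4 d1 d2 s1 s2 e1 e2 v
  have h : IsPerm (p ++ q) := ⟨a1.1.append a2.1 d1, fun x hx =>
    (mem_append.1 hx).elim (a1.2 x) (a2.2 x)⟩
  have h' : IsPerm (p' ++ q') := ⟨a3.1.append a4.1 d2, fun x hx =>
    (mem_append.1 hx).elim (a3.2 x) (a4.2 x)⟩
  by_cases c : Odd (p.length + q.length) → sg (p ++ q) = sg (p' ++ q')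
  · exact sh_eq h h' e1 e2 c v
  obtain ⟨c1, c2⟩ := Classical.not_imp.1 c
  have c3 : sg (p ++ q) = - sg (p' ++ q') := by
    rcases sg_cases (p ++ q) with a | a <;> rcases sg_cases (p' ++ q') with b | b <;> simp_all
  rcases Nat.even_or_odd q.length with g | g
  · cases q' with
    | nil =>
      rw [length_eq_zero_iff.1 e2] at c1 c2
      exact absurd (by simpa using same_sg a1.1 a3.1 e1 (by simpa using c1) s1) c2
    | cons a l =>
      have r : a :: l ~r l ++ [a] := ⟨1, by simp⟩
      rw [sh_rot (IsRotated.refl p') r]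
      refine sh_eq h (isPerm_perm (r.perm.append_left p') h') e1 (by simpa using e2) (fun _ => ?_) v
      have k := sg_move a l [] (nodup_cons.1 a4.1).1
      have o : Odd l.length := by
        rw [e2] at g
        simpa [parity_simps] using g
      rw [append_nil, o.neg_one_pow] at k
      rw [c3, sg_pre p' r.perm _ k]
      ring
  · cases p' with
    | nil =>
      rw [length_eq_zero_iff.1 e1] at c1 c2
      exact absurd (by simpa using same_sg a2.1 a4.1 e2 g s2) c2
    | cons a l =>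
      have r : a :: l ~r l ++ [a] := ⟨1, by simp⟩
      rw [sh_rot r (IsRotated.refl q')]
      refine sh_eq h (isPerm_perm (r.perm.append_right q') h') (by simpa using e1) e2 (fun _ => ?_) v
      have k := sg_move a l q' (nodup_cons.1 a3.1).1
      have o : Odd l.length := by
        rw [e1, length_cons] at c1
        rw [Nat.odd_iff] at c1 g ⊢
        omega
      rw [o.neg_one_pow] at k
      rw [c3, k]
      simp

theorem result : ∃ (β : Type) (cst : Cycle ℕ → β),
    IsStat cst ∧ Compatible cst ∧ ¬ IsDescentStat cst := by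
  refine ⟨Prop, stat, fun p q a1 a2 a3 => ?_, compat, fun h => ?_⟩
  · rw [stat_iff a1.1, stat_iff a2.1, a3.1, sg_same p q a3]
  · have := h [1, 2, 3, 5, 4] [1, 2, 4, 5, 3] ⟨by decide, by decide⟩ ⟨by decide, by decide⟩ rfl
      (by decide)
    rw [stat_iff (by decide), stat_iff (by decide)] at this
    exact absurd (this.to_iff.1 (by decide)).2 (by decide)

end Pool.Agent.Results.MP_f664e7_co.Counter
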